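import Pool.Agent.KS6_5.OF.Good
import Pool.Agent.KS6_5.OG.Elliptic

/-!
# Families of Weil numbers separated by signs: criteria
-/

set_option autoImplicit false
set_option linter.unusedSectionVars false

namespace Pool.Agent.KS6_5.OF

open NumberField Polynomial IntermediateField Pool.Agent.TH121.KT Pool.Agent.KS6_5.SP
  Pool.Agent.KS6_5.OC Pool.Agent.KS6_5.OG

noncomputable section

/-- The automorphisms which fix the root `z` of `P` permute the roots different from `z` and from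
`q / z` transitively, for each `z`: over the field generated by `z`, the polynomial `P` is the product
of powers of `X - z`, of `X - q / z` and of an irreducible polynomial. -/
def TransitiveOnOthers (q : ℕ) (P : ℤ[X]) : Prop :=
  ∀ z x y : AlgebraicClosure ℚ, aeval z P = 0 → aeval x P = 0 → aeval y P = 0 →
    x ≠ z → z * x ≠ (q : AlgebraicClosure ℚ) → y ≠ z → z * y ≠ (q : AlgebraicClosure ℚ) →
    ∃ g : AlgebraicClosure ℚ ≃ₐ[ℚ] AlgebraicClosure ℚ, g z = z ∧ g x = y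

/-- The automorphisms which fix a root of `P` permute the roots of `Q` transitively: an irreducible
polynomial `Q` remains irreducible over the fields generated by the roots of `P`. -/
def TransitiveOver (P Q : ℤ[X]) : Prop :=
  ∀ z x y : AlgebraicClosure ℚ, aeval z P = 0 → aeval x Q = 0 → aeval y Q = 0 →
    ∃ g : AlgebraicClosure ℚ ≃ₐ[ℚ] AlgebraicClosure ℚ, g z = z ∧ g x = y

variable {q : ℕ}

theorem separated_same' (hq : 0 < q) {P : ℤ[X]} (hweil : ∀ z : Qb, aeval z P = 0 →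
    ∀ φ : Qb →+* ℂ, ‖φ z‖ ^ 2 = q) (h : TransitiveOnOthers q P)
    {z z' : Qb} (hz : aeval z P = 0) (hz' : aeval z' P = 0) :
    z = z' ∨ z * z' = (q : Qb) ∨ Flips q z z' := by
  have hqQ : (q : Qb) ≠ 0 := Nat.cast_ne_zero.2 hq.ne'
  obtain ⟨φ₀⟩ : Nonempty (Qb →ₐ[ℚ] ℂ) := ⟨IsAlgClosed.lift⟩
  let φ : Qb →+* ℂ := φ₀.toRingHom
  obtain ⟨c, hc⟩ := exists_aut φ ((starRingEnd ℂ).comp φ)
  have hconj : ∀ x : Qb, aeval x P = 0 → x * c x = (q : Qb) := by
    intro x hx
    apply φ.injective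
    rw [map_mul, ← hc, map_natCast]
    have h1 := hweil x hx φ
    change φ x * (starRingEnd ℂ) (φ x) = _
    rw [Complex.mul_conj, Complex.normSq_eq_norm_sq, h1]
    simp
  have hz0 : z ≠ 0 := by
    rintro rfl
    have := hconj 0 hz
    rw [zero_mul] at this
    exact hqQ this.symm
  have hz0' : z' ≠ 0 := by
    rintro rfl
    have := hconj 0 hz'
    rw [zero_mul] at this
    exact hqQ this.symm
  by_cases h1 : z = z'
  · exact Or.inl h1
  by_cases h2 : z * z' = (q : Qb)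
  · exact Or.inr (Or.inl h2)
  have hc1 : z' * c z' = (q : Qb) := hconj z' hz'
  have h3 : c z' ≠ z := by
    intro h
    apply h2
    rw [mul_comm, ← h, hc1]
  have h4 : z * c z' ≠ (q : Qb) := by
    intro h
    apply h1
    have h5 : c z' ≠ 0 := (map_ne_zero_iff c c.injective).2 hz0'
    exact mul_right_cancel₀ h5 (h.trans hc1.symm)
  obtain ⟨g, hg, hg'⟩ := h z z' (c z') hz hz' (aeval_aut hz' c) (fun h => h1 h.symm) h2 h3 h4
  refine Or.inr (Or.inr ⟨g, 1, one_pos, by rw [hg], ?_⟩)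
  rw [hg', mul_comm, hc1]

theorem flips_of_transitive (hq : 0 < q) {P Q : ℤ[X]} (hweil : ∀ z : Qb, aeval z Q = 0 →
    ∀ φ : Qb →+* ℂ, ‖φ z‖ ^ 2 = q) (h : TransitiveOver P Q)
    {z z' : Qb} (hz : aeval z P = 0) (hz' : aeval z' Q = 0) : Flips q z z' := by
  have hqQ : (q : Qb) ≠ 0 := Nat.cast_ne_zero.2 hq.ne'
  obtain ⟨φ₀⟩ : Nonempty (Qb →ₐ[ℚ] ℂ) := ⟨IsAlgClosed.lift⟩
  let φ : Qb →+* ℂ := φ₀.toRingHom
  obtain ⟨c, hc⟩ := exists_aut φ ((starRingEnd ℂ).comp φ)
  have hconj : z' * c z' = (q : Qb) := by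
    apply φ.injective
    rw [map_mul, ← hc, map_natCast]
    have h1 := hweil z' hz' φ
    change φ z' * (starRingEnd ℂ) (φ z') = _
    rw [Complex.mul_conj, Complex.normSq_eq_norm_sq, h1]
    simp
  obtain ⟨g, hg, hg'⟩ := h z z' (c z') hz hz' (aeval_aut hz' c)
  refine ⟨g, 1, one_pos, by rw [hg], ?_⟩
  rw [hg', mul_comm, hconj]

variable {p : ℕ} [hp : Fact p.Prime] {a : ℕ} {κ : Type} {δ : κ → ℝ} {P : κ → ℤ[X]}

/-- a root is not supersingular -/
theorem not_supersingular (ha : 0 < a) {δ : ℝ} (hδ : 0 < δ) {P : ℤ[X]} (hm : P.Monic)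
    (hirr : Irreducible P) (hsl : (P.natDegree : ℝ) * (2 * δ) ^ 2 ≤
      ((P.aroots (PadicAlgCl p)).map fun y =>
        (2 * Real.log ‖y‖ / Real.log (p ^ a : ℕ) + 1) ^ 2).sum)
    {z : Qb} (hz : aeval z P = 0) {m : ℕ} (hm0 : 0 < m) :
    (z ^ 2) ^ m ≠ ((p ^ a : ℕ) : Qb) ^ m := by
  intro h
  obtain ⟨ιp⟩ : Nonempty (Qb →ₐ[ℚ] PadicAlgCl p) := ⟨IsAlgClosed.lift⟩
  let ι : Qb →+* PadicAlgCl p := ιp.toRingHom
  have hq1 : 1 < p ^ a := Nat.one_lt_pow ha.ne' (Fact.out : p.Prime).one_lt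
  have hL0 : 0 < Real.log ((p ^ a : ℕ) : ℝ) := Real.log_pos (by exact_mod_cast hq1)
  have hqQ : ((p ^ a : ℕ) : Qb) ≠ 0 := Nat.cast_ne_zero.2 (pow_pos hp.out.pos _).ne'
  have hint : IsIntegral ℤ z := ⟨P, hm, hz⟩
  have hmin : ∀ x : Qb, aeval x P = 0 → minpoly ℤ x = P := by
    intro x hx
    have hx' : IsIntegral ℤ x := ⟨P, hm, hx⟩
    have h1 := minpoly.isIntegrallyClosed_dvd hx' hx
    have h2 : Associated (minpoly ℤ x) P :=
      hirr.dvd_iff.1 h1 |>.resolve_left (minpoly.not_isUnit ℤ x) |>.symm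
    exact eq_of_monic_of_associated (minpoly.monic hx') hm h2
  have hall : ∀ y : Qb, aeval y P = 0 → lv a ι y = 0 := by
    intro y hy
    have hy' : IsIntegral ℤ y := ⟨P, hm, hy⟩
    have hmin' : minpoly ℚ z = minpoly ℚ y := by
      rw [minpoly.isIntegrallyClosed_eq_field_fractions' ℚ hint,
        minpoly.isIntegrallyClosed_eq_field_fractions' ℚ hy', hmin z hz, hmin y hy]
    obtain ⟨g, hg⟩ := minpoly.exists_algEquiv_of_root (K := ℚ) (L := Qb)
      (Algebra.IsAlgebraic.isAlgebraic y)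
      (show aeval z (minpoly ℚ y) = 0 by rw [← hmin', minpoly.aeval])
    have h1 : (y ^ 2) ^ m = ((p ^ a : ℕ) : Qb) ^ m := by
      have h2 := congrArg g h
      rwa [map_pow, map_pow, map_pow, map_natCast, hg] at h2
    have h2 := congrArg (fun x => Real.log ‖ι x‖) h1
    simp only [map_pow, norm_pow, Real.log_pow] at h2
    have hm' : (m : ℝ) ≠ 0 := Nat.cast_ne_zero.2 hm0.ne'
    have h3 := mul_left_cancel₀ hm' h2
    rw [log_q] at h3
    unfold lv
    push_cast at h3 ⊢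
    linarith
  have hsum : ((P.aroots (PadicAlgCl p)).map fun y =>
      (2 * Real.log ‖y‖ / Real.log (p ^ a : ℕ) + 1) ^ 2).sum = 0 := by
    rw [← aroots_padic P ι, Multiset.map_map]
    refine Multiset.sum_eq_zero fun x hx => ?_
    obtain ⟨y, hy, rfl⟩ := Multiset.mem_map.1 hx
    have h1 := hall y (mem_aroots.1 hy).2
    unfold lv at h1
    have h2 : 2 * Real.log ‖ι y‖ / Real.log ((p ^ a : ℕ) : ℝ) + 1 = 0 := by
      rw [div_add_one hL0.ne', h1, zero_div]
    change (2 * Real.log ‖ι y‖ / Real.log ((p ^ a : ℕ) : ℝ) + 1) ^ 2 = 0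
    rw [h2, zero_pow two_ne_zero]
  rw [hsum] at hsl
  have hdeg : 0 < P.natDegree := by
    rcases Nat.eq_zero_or_pos P.natDegree with h0 | h0
    · exfalso
      rw [eq_one_of_monic_natDegree_zero hm h0, map_one] at hz
      exact one_ne_zero hz
    · exact h0
  have h1 : 0 < (P.natDegree : ℝ) * (2 * δ) ^ 2 :=
    mul_pos (Nat.cast_pos.2 hdeg) (pow_pos (mul_pos two_pos hδ) 2)
  linarith

/-- the neatness of separated roots -/
theorem neat_of_flips (ha : 0 < a) {z z' : Qb} (hz0 : z ≠ 0) (hz0' : z' ≠ 0)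
    (hns : ∀ m : ℕ, 0 < m → (z ^ 2) ^ m ≠ ((p ^ a : ℕ) : Qb) ^ m)
    (h : Flips (p ^ a) z z') {m : ℕ} (hm : 0 < m) (hzz : (z * z') ^ m = ((p ^ a : ℕ) : Qb) ^ m) :
    False := by
  obtain ⟨g, n, hn, h1, h2⟩ := h
  have hqQ : ((p ^ a : ℕ) : Qb) ≠ 0 := Nat.cast_ne_zero.2 (pow_pos hp.out.pos _).ne'
  have h3 := congrArg g hzz
  rw [map_pow, map_mul, map_pow, map_natCast] at h3
  have hgz' : g z' ≠ 0 := (map_ne_zero_iff g g.injective).2 hz0'
  -- `(z * g z') ^ (m n) = q ^ (m n)`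
  have h4 : (z * g z') ^ (m * n) = ((p ^ a : ℕ) : Qb) ^ (m * n) := by
    have e1 : (g z) ^ (m * n) = z ^ (m * n) := by rw [mul_comm, pow_mul, h1, ← pow_mul]
    rw [mul_pow, ← e1, ← mul_pow, pow_mul, h3, ← pow_mul]
  have h5 : (z * z') ^ (m * n) = ((p ^ a : ℕ) : Qb) ^ (m * n) := by
    rw [pow_mul, hzz, ← pow_mul]
  have h6 : (g z' * z') ^ (m * n) = ((p ^ a : ℕ) : Qb) ^ (m * n) := by
    rw [mul_comm m n, pow_mul, h2, ← pow_mul]
  apply hns (m * n) (Nat.mul_pos hm hn)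
  have h7 : (z ^ 2) ^ (m * n) * (g z' * z') ^ (m * n) =
      ((p ^ a : ℕ) : Qb) ^ (m * n) * ((p ^ a : ℕ) : Qb) ^ (m * n) := by
    nth_rewrite 1 [← h4]
    nth_rewrite 1 [← h5]
    rw [← mul_pow, ← mul_pow]
    congr 1
    ring
  rw [h6] at h7
  exact mul_right_cancel₀ (pow_ne_zero _ hqQ) h7

/-- **The criterion.** -/
theorem family_of_transitive (ha : 0 < a) (hpos : ∀ k, 0 < δ k) (hmonic : ∀ k, (P k).Monic)
    (hirr : ∀ k, Irreducible (P k))
    (hweil : ∀ (k : κ) (z : Qb), aeval z (P k) = 0 → ∀ φ : Qb →+* ℂ, ‖φ z‖ ^ 2 = (p ^ a : ℕ))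
    (hsl : ∀ k, ((P k).natDegree : ℝ) * (2 * δ k) ^ 2 ≤
      (((P k).aroots (PadicAlgCl p)).map fun y =>
        (2 * Real.log ‖y‖ / Real.log (p ^ a : ℕ) + 1) ^ 2).sum)
    (hC : ∀ k, TransitiveOnOthers (p ^ a) (P k))
    (hI : ∀ k l, k ≠ l → TransitiveOver (P k) (P l) ∨ TransitiveOver (P l) (P k)) :
    IsSeparatedFamily p a δ P := by
  have hq : 0 < p ^ a := pow_pos hp.out.pos _
  have hqQ : ((p ^ a : ℕ) : Qb) ≠ 0 := Nat.cast_ne_zero.2 hq.ne'
  have hz0 : ∀ (k : κ) (z : Qb), aeval z (P k) = 0 → z ≠ 0 := by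
    rintro k z hz rfl
    obtain ⟨φ⟩ : Nonempty (Qb →ₐ[ℚ] ℂ) := ⟨IsAlgClosed.lift⟩
    have h1 := hweil k 0 hz φ.toRingHom
    rw [map_zero, norm_zero, zero_pow two_ne_zero] at h1
    exact hq.ne' (by exact_mod_cast h1.symm)
  have hns : ∀ (k : κ) (z : Qb), aeval z (P k) = 0 → ∀ m : ℕ, 0 < m →
      (z ^ 2) ^ m ≠ ((p ^ a : ℕ) : Qb) ^ m := fun k z hz m hm =>
    not_supersingular ha (hpos k) (hmonic k) (hirr k) (hsl k) hz hm
  -- the strong form of the separation
  have hsep : ∀ (k l : κ) (z z' : Qb), aeval z (P k) = 0 → aeval z' (P l) = 0 →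
      z = z' ∨ z * z' = ((p ^ a : ℕ) : Qb) ∨ Flips (p ^ a) z z' ∨ Flips (p ^ a) z' z := by
    intro k l z z' hz hz'
    by_cases hkl : k = l
    · subst hkl
      by_cases h1 : z = z'
      · exact Or.inl h1
      by_cases h2 : z * z' = ((p ^ a : ℕ) : Qb)
      · exact Or.inr (Or.inl h2)
      rcases separated_same' hq (hweil k) (hC k) hz hz' with h | h | h
      · exact absurd h h1
      · exact absurd h h2
      · exact Or.inr (Or.inr (Or.inl h))
    · rcases hI k l hkl with h | h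
      · exact Or.inr (Or.inr (Or.inl (flips_of_transitive hq (hweil l) h hz hz')))
      · exact Or.inr (Or.inr (Or.inr (flips_of_transitive hq (hweil k) h hz' hz)))
  refine ⟨hpos, hmonic, hirr, hweil, hsl, fun k l z z' hz hz' => ?_, fun k l z z' hz hz' m hm h => ?_⟩
  · rcases hsep k l z z' hz hz' with h | h | h | h
    · exact Or.inl ⟨1, one_pos, by rw [h]⟩
    · exact Or.inr (Or.inl ⟨1, one_pos, by rw [h]⟩)
    · exact Or.inr (Or.inr (Or.inl h))
    · exact Or.inr (Or.inr (Or.inr h))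
  · rcases hsep k l z z' hz hz' with h1 | h1 | h1 | h1
    · subst h1
      exact absurd (by rw [sq]; exact h) (hns k z hz m hm)
    · exact h1
    · exact (neat_of_flips ha (hz0 k z hz) (hz0 l z' hz') (hns k z hz) h1 hm h).elim
    · exact (neat_of_flips ha (hz0 l z' hz') (hz0 k z hz) (hns l z' hz') h1 hm
        (by rw [mul_comm]; exact h)).elim

/-- the mean square for two slopes -/
theorem slopes_of_hasSlopes (ha : 0 < a) {δ : ℝ} {P : ℤ[X]} (H : HasSlopes p (p ^ a) δ P) :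
    (P.natDegree : ℝ) * (2 * δ) ^ 2 ≤ ((P.aroots (PadicAlgCl p)).map fun y =>
        (2 * Real.log ‖y‖ / Real.log (p ^ a : ℕ) + 1) ^ 2).sum := by
  obtain ⟨ιp⟩ : Nonempty (Qb →ₐ[ℚ] PadicAlgCl p) := ⟨IsAlgClosed.lift⟩
  let ι : Qb →+* PadicAlgCl p := ιp.toRingHom
  have hq1 : 1 < p ^ a := Nat.one_lt_pow ha.ne' (Fact.out : p.Prime).one_lt
  have hqR : (0 : ℝ) < ((p ^ a : ℕ) : ℝ) := Nat.cast_pos.2 (by omega)
  have hL0 : 0 < Real.log ((p ^ a : ℕ) : ℝ) := Real.log_pos (by exact_mod_cast hq1)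
  have hcard : Multiset.card (P.aroots Qb) = P.natDegree := by
    rw [aroots_def, ← (IsAlgClosed.splits (P.map (algebraMap ℤ Qb))).natDegree_eq_card_roots,
      H.monic.natDegree_map]
  rw [← aroots_padic P ι, Multiset.map_map]
  have h1 : ∀ y ∈ P.aroots Qb, ((fun y => (2 * Real.log ‖y‖ / Real.log (p ^ a : ℕ) + 1) ^ 2) ∘ ι) y =
      (2 * δ) ^ 2 := by
    intro y hy
    change (2 * Real.log ‖ι y‖ / Real.log ((p ^ a : ℕ) : ℝ) + 1) ^ 2 = (2 * δ) ^ 2
    rcases H.slope y (mem_aroots.1 hy).2 ι with h | h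
    · rw [h, Real.log_rpow hqR]
      field_simp
      ring
    · rw [h, Real.log_rpow hqR]
      field_simp
      ring
  rw [Multiset.map_congr rfl h1, Multiset.map_const', Multiset.sum_replicate, hcard, nsmul_eq_mul]

theorem ell_irreducible {q : ℕ} {b : ℤ} (hd : b ^ 2 < 4 * q) : Irreducible (ellPoly q b) := by
  rw [(ellPoly_monic q b).irreducible_iff_irreducible_map_fraction_map (K := ℚ)]
  have hdeg : (ellPoly q b).natDegree = 2 := by
    unfold ellPoly
    compute_degree!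
  refine irreducible_of_degree_le_three_of_not_isRoot ?_ ?_
  · rw [(ellPoly_monic q b).natDegree_map, hdeg]
    simp
  · intro r hr
    rw [IsRoot.def, eval_map, ← aeval_def, aeval_ellPoly] at hr
    have h1 : ((2 * r - b) : ℚ) ^ 2 = b ^ 2 - 4 * q := by linear_combination 4 * hr
    have h2 : (b : ℚ) ^ 2 < 4 * q := by exact_mod_cast hd
    nlinarith [sq_nonneg (2 * r - b)]

theorem ell_separated {q : ℕ} (hq : 0 < q) {b b' : ℤ}
    (h : b = b' ∨ ¬ IsSquare ((b ^ 2 - 4 * q) * (b' ^ 2 - 4 * q))) {z z' : Qb}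
    (hz : aeval z (ellPoly q b) = 0) (hz' : aeval z' (ellPoly q b') = 0) : Separated q z z' := by
  have hqQ : (q : Qb) ≠ 0 := Nat.cast_ne_zero.2 hq.ne'
  obtain ⟨hz0, hsum, hzc⟩ := ell_conj hqQ hz
  obtain ⟨hz0', hsum', hzc'⟩ := ell_conj hqQ hz'
  have e1 := hz
  have e2 := hz'
  rw [aeval_ellPoly] at e1 e2
  rcases h with rfl | h
  · have h3 : (z' - z) * (z' * z - q) = 0 := by
      linear_combination z * e2 - z' * e1
    rcases mul_eq_zero.1 h3 with h4 | h4
    · exact Or.inl ⟨1, one_pos, by rw [sub_eq_zero.1 h4]⟩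
    · exact Or.inr (Or.inl ⟨1, one_pos, by rw [mul_comm, sub_eq_zero.1 h4]⟩)
  · let u : Qb := 2 * z - b
    let u' : Qb := 2 * z' - b'
    have hu : u ^ 2 = ((b ^ 2 - 4 * q : ℤ) : Qb) := by
      push_cast
      simp only [u]
      linear_combination 4 * e1
    have hu' : u' ^ 2 = ((b' ^ 2 - 4 * q : ℤ) : Qb) := by
      push_cast
      simp only [u']
      linear_combination 4 * e2
    have huu : (u * u') ^ 2 = (((b ^ 2 - 4 * q) * (b' ^ 2 - 4 * q) : ℤ) : Qb) := by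
      rw [mul_pow, hu, hu', Int.cast_mul]
    have hnot : ¬ ∀ g : GQ, g (u * u') = u * u' := by
      intro hall
      obtain ⟨r, hr⟩ := (InfiniteGalois.mem_range_algebraMap_iff_fixed (k := ℚ) (u * u')).2 hall
      apply h
      have h5 : (r : ℚ) ^ 2 = (((b ^ 2 - 4 * q) * (b' ^ 2 - 4 * q) : ℤ) : ℚ) := by
        apply (algebraMap ℚ Qb).injective
        rw [map_pow, hr, huu, map_intCast]
      have h6 : IsSquare ((((b ^ 2 - 4 * q) * (b' ^ 2 - 4 * q) : ℤ) : ℚ)) :=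
        ⟨r, by rw [← h5, sq]⟩
      exact (Rat.isSquare_intCast_iff).1 h6
    push Not at hnot
    obtain ⟨g, hg⟩ := hnot
    have sgn : ∀ (v : Qb) (n : ℤ), v ^ 2 = n → g v = v ∨ g v = -v := by
      intro v n hv
      have h7 : (g v) ^ 2 = v ^ 2 := by rw [← map_pow, hv, map_intCast]
      exact sq_eq_sq_iff_eq_or_eq_neg.1 h7
    have gz : g u = u → g z = z := by
      intro h8
      simp only [u] at h8
      rw [map_sub, map_mul, map_ofNat, map_intCast] at h8
      linear_combination h8 / 2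
    have gz' : g u' = u' → g z' = z' := by
      intro h8
      simp only [u'] at h8
      rw [map_sub, map_mul, map_ofNat, map_intCast] at h8
      linear_combination h8 / 2
    have gzn : g u = -u → g z * z = q := by
      intro h8
      simp only [u] at h8
      rw [map_sub, map_mul, map_ofNat, map_intCast] at h8
      linear_combination (z / 2) * h8 - e1
    have gzn' : g u' = -u' → g z' * z' = q := by
      intro h8
      simp only [u'] at h8
      rw [map_sub, map_mul, map_ofNat, map_intCast] at h8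
      linear_combination (z' / 2) * h8 - e2
    rcases sgn u _ hu with h9 | h9 <;> rcases sgn u' _ hu' with h10 | h10
    · exact absurd (by rw [map_mul, h9, h10]) hg
    · exact Or.inr (Or.inr (Or.inl ⟨g, 1, one_pos, by rw [gz h9], by rw [gzn' h10]⟩))
    · exact Or.inr (Or.inr (Or.inr ⟨g, 1, one_pos, by rw [gz' h10], by rw [gzn h9]⟩))
    · exact absurd (by rw [map_mul, h9, h10, neg_mul_neg]) hg

/-- **Ordinary elliptic curves.** -/
theorem ell_separated_family (ha : 0 < a) (b : κ → ℤ) (hb : ∀ k, ¬ (p : ℤ) ∣ b k)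
    (hd : ∀ k, b k ^ 2 < 4 * (p ^ a : ℕ))
    (h : ∀ k l, b k = b l ∨
      ¬ IsSquare ((b k ^ 2 - 4 * (p ^ a : ℕ)) * (b l ^ 2 - 4 * (p ^ a : ℕ)))) :
    IsSeparatedFamily p a (fun _ : κ => 1 / 2) (fun k => ellPoly (p ^ a) (b k)) where
  pos _ := by norm_num
  monic k := ellPoly_monic _ _
  irreducible k := ell_irreducible (hd k)
  weil k := (ell_hasSlopes (hb k) (hd k)).weil
  slopes k := slopes_of_hasSlopes ha (ell_hasSlopes (hb k) (hd k))
  separated k l _ _ hz hz' := ell_separated (pow_pos hp.out.pos _) (h k l) hz hz'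
  neat k l _ _ hz hz' _ hm hzz := ell_neat ha (hb k) (hb l) (hd k) (hd l) (h k l) hz hz' hm hzz

end

end Pool.Agent.KS6_5.OF
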