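import Mathlib

/-!
# Families of Weil numbers separated by signs: definitions
-/

set_option autoImplicit false

namespace Pool.Agent.KS6_5.OF

open Polynomial

/-- Some automorphism of the field of algebraic numbers fixes a power `z ^ m`, `m > 0`, and maps
`z' ^ m` to `(q / z') ^ m`, its complex conjugate. -/
def Flips (q : ℕ) (z z' : AlgebraicClosure ℚ) : Prop :=
  ∃ (g : AlgebraicClosure ℚ ≃ₐ[ℚ] AlgebraicClosure ℚ) (m : ℕ), 0 < m ∧ (g z) ^ m = z ^ m ∧
    (g z' * z') ^ m = (q : AlgebraicClosure ℚ) ^ m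

/-- The numbers `z` and `z'` are equal or have the product `q`, up to a root of unity, or they are
separated by signs: an automorphism fixes a power of one of them and conjugates the other one. -/
def Separated (q : ℕ) (z z' : AlgebraicClosure ℚ) : Prop :=
  (∃ m : ℕ, 0 < m ∧ z ^ m = z' ^ m) ∨
    (∃ m : ℕ, 0 < m ∧ (z * z') ^ m = (q : AlgebraicClosure ℚ) ^ m) ∨ Flips q z z' ∨ Flips q z' z

/-- The polynomials `P k` with integral coefficients are monic and irreducible, all complex absolute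
values of their roots are `√q`, `q = p ^ a`; the mean of the `(2 s - 1) ^ 2`, over the `p`-adic slopes `s`
of `P k` (with multiplicities), is at least `(2 δ k) ^ 2 > 0`; any two roots of these polynomials
are separated (`Separated`); and `z z' / q` is not a root of unity different from one, for all roots
`z`, `z'`. -/
structure IsSeparatedFamily (p : ℕ) [Fact p.Prime] (a : ℕ) {κ : Type} (δ : κ → ℝ)
    (P : κ → ℤ[X]) : Prop where
  pos : ∀ k, 0 < δ k
  monic : ∀ k, (P k).Monic
  irreducible : ∀ k, Irreducible (P k)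
  weil : ∀ (k : κ) (z : AlgebraicClosure ℚ), aeval z (P k) = 0 →
    ∀ φ : AlgebraicClosure ℚ →+* ℂ, ‖φ z‖ ^ 2 = (p ^ a : ℕ)
  slopes : ∀ k, ((P k).natDegree : ℝ) * (2 * δ k) ^ 2 ≤ (((P k).aroots (PadicAlgCl p)).map fun y =>
    (2 * Real.log ‖y‖ / Real.log (p ^ a : ℕ) + 1) ^ 2).sum
  separated : ∀ (k l : κ) (z z' : AlgebraicClosure ℚ), aeval z (P k) = 0 → aeval z' (P l) = 0 →
    Separated (p ^ a) z z'
  neat : ∀ (k l : κ) (z z' : AlgebraicClosure ℚ), aeval z (P k) = 0 → aeval z' (P l) = 0 →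
    ∀ m : ℕ, 0 < m → (z * z') ^ m = ((p ^ a : ℕ) : AlgebraicClosure ℚ) ^ m →
      z * z' = ((p ^ a : ℕ) : AlgebraicClosure ℚ)

end Pool.Agent.KS6_5.OF
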