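import Pool.Agent.KS6_5.OF.Good
import Pool.Agent.KS6_5.OG.Fields

/-!
# Weil numbers in CM fields separated by signs: angle rank, and the splitting of the classes
-/

set_option autoImplicit false
set_option linter.unusedSectionVars false
set_option linter.unusedVariables false

namespace Pool.Agent.KS6_5.OF

open NumberField Polynomial Module IntermediateField
open Pool.Agent.TH121.KT Pool.Agent.KS6_5.SP Pool.Agent.KS6_5.OC Pool.Agent.KS6_5.OG
open Pool.Agent.H204R3.CM Pool.Agent.H204R3.SP Pool.Agent.H204R3.GP Pool.Agent.Y137.MV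
  Pool.Agent.Y137.SL
open Pool.Agent.KS6_5.KL (exists_matching)

noncomputable section

variable {p : ℕ} [Fact p.Prime] {a : ℕ} {ι : Type} {E : ι → Type} [∀ i, Field (E i)]
  [∀ i, NumberField (E i)] [∀ i, IsCMField (E i)] {δ : ι → ℝ}

/-- The Weil numbers `π i` for `p ^ a` generate the CM fields `E i`, are not conjugate to each
other, and their minimal polynomials are a separated family. -/
structure IsSeparatedNumbers (p : ℕ) [Fact p.Prime] (a : ℕ) (δ : ι → ℝ) (π : ∀ i, E i) : Prop where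
  generates : ∀ i, ℚ⟮π i⟯ = ⊤
  weight : ∀ i, π i * IsCMField.complexConj (E i) (π i) = (p : E i) ^ a
  different : ∀ i j, i ≠ j → minpoly ℤ (π i) ≠ minpoly ℤ (π j)
  family : IsSeparatedFamily p a δ (fun i => minpoly ℤ (π i))

variable {π : ∀ i, E i}

theorem IsSeparatedNumbers.root (_H : IsSeparatedNumbers p a δ π) (i : ι) (φ : E i →+* Qb) :
    aeval (φ (π i)) (minpoly ℤ (π i)) = 0 := by
  have h1 := congrArg φ (minpoly.aeval ℤ (π i))
  rw [map_zero, aeval_def, Polynomial.hom_eval₂] at h1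
  rw [aeval_def]
  rwa [show (φ.comp (algebraMap ℤ (E i))) = algebraMap ℤ Qb from RingHom.ext_int _ _] at h1

theorem IsSeparatedNumbers.integral (H : IsSeparatedNumbers p a δ π) (i : ι) :
    IsIntegral ℤ (π i) := by
  by_contra h
  have h1 := H.family.monic i
  rw [minpoly.eq_zero h] at h1
  exact h1.ne_zero rfl

/-- the numbers determine the embeddings -/
theorem IsSeparatedNumbers.inj (H : IsSeparatedNumbers p a δ π) {x y : Σ i, (E i →+* Qb)}
    (h : x.2 (π x.1) = y.2 (π y.1)) : x = y := by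
  obtain ⟨i, φ⟩ := x
  obtain ⟨j, ψ⟩ := y
  have hij : i = j := by
    by_contra hne
    apply H.different i j hne
    have e : ∀ (k : ι) (χ : E k →+* Qb), minpoly ℤ (χ (π k)) = minpoly ℤ (π k) := by
      intro k χ
      exact minpoly.algHom_eq χ.toIntAlgHom χ.injective (π k)
    rw [← e i φ, ← e j ψ]
    exact congrArg _ h
  subst hij
  have h2 : φ = ψ := hom_ext_of_generates (H.generates i) h
  rw [h2]

theorem IsSeparatedNumbers.conj (H : IsSeparatedNumbers p a δ π) (x : Σ i, (E i →+* Qb)) :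
    x.2 (π x.1) * (cjS x).2 (π (cjS x).1) = ((p ^ a : ℕ) : Qb) := by
  change x.2 (π x.1) * x.2 (IsCMField.complexConj (E x.1) (π x.1)) = _
  rw [← map_mul, H.weight, map_pow, map_natCast, Nat.cast_pow]

theorem IsSeparatedNumbers.ne_zero (H : IsSeparatedNumbers p a δ π) (x : Σ i, (E i →+* Qb)) :
    x.2 (π x.1) ≠ 0 := H.family.ne_zero (H.root x.1 x.2)

/-- **The relations between the conjugates and a number `β`.** -/
theorem balanced_family (ha : 0 < a) (H : IsSeparatedNumbers p a δ π) {w : ℝ} (hw : 0 ≤ w)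
    {χ : ℚ[X]} (hχ : χ ≠ 0) (hP : NarrowUnrelated p a w δ (fun i => minpoly ℤ (π i)) χ)
    {κ : Type*} [Fintype κ] [DecidableEq (Σ i, (E i →+* Qb))] (I : κ → Σ i, (E i →+* Qb))
    (N : ℕ) (hN : 0 < N) (β : Qb) (hβ : aeval β χ = 0) (e : ℕ)
    (hrel : ∏ l, ((I l).2 (π (I l).1)) ^ N = β ^ N * (((p ^ a : ℕ) : Qb) ^ e) ^ N)
    (x : Σ i, (E i →+* Qb)) :
    (Finset.univ.filter (fun l => I l = x)).card =
      (Finset.univ.filter (fun l => I l = cjS x)).card := by
  classical
  obtain ⟨S, hS, hop, P, hPm⟩ := exists_matching (κ := κ) cjS I _ Finset.univ rfl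
  rcases Finset.eq_empty_or_nonempty S with rfl | hne
  · have h1 := card_of_matched cjS cjS_cjS I P hPm x
    exact h1
  exfalso
  set q : Qb := ((p ^ a : ℕ) : Qb) with hq
  have hqQ : q ≠ 0 := Nat.cast_ne_zero.2 (pow_pos (Fact.out : p.Prime).pos _).ne'
  let v : (Σ i, (E i →+* Qb)) → Qb := fun x => x.2 (π x.1)
  have hv : ∀ x, v x * v (cjS x) = q := H.conj
  have hv0 : ∀ x, v x ≠ 0 := H.ne_zero
  -- the product over the matched letters
  have hpairs : ∏ l ∈ Finset.univ \ S, v (I l) = q ^ P.parts.card := by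
    have h2 : Finset.univ \ S = P.parts.biUnion id := by
      rw [← Finset.sup_eq_biUnion]
      exact P.sup_parts.symm
    have h3 : ∏ l ∈ Finset.univ \ S, v (I l) = ∏ l ∈ P.parts.biUnion id, v (I l) := by
      rw [← h2]
    rw [h3, Finset.prod_biUnion P.supIndep.pairwiseDisjoint]
    rw [Finset.prod_congr rfl (g := fun _ => q), Finset.prod_const]
    intro B hB
    obtain ⟨i, j, hij, rfl, hφ⟩ := hPm B hB
    rw [id, Finset.prod_pair hij, hφ, hv]
  have hsplit : (∏ l ∈ S, v (I l)) * q ^ P.parts.card = ∏ l, v (I l) := by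
    rw [← hpairs, mul_comm]
    exact Finset.prod_sdiff (Finset.subset_univ S)
  have hrel' : ((∏ l ∈ S, v (I l)) * q ^ P.parts.card) ^ N = β ^ N * (q ^ e) ^ N := by
    rw [hsplit, ← hrel, Finset.prod_pow]
  have hopp : (∏ l ∈ S, v (I l)) * ∏ l ∈ S, v (cjS (I l)) = q ^ S.card := by
    rw [← Finset.prod_mul_distrib, Finset.prod_congr rfl (fun l _ => hv (I l)), Finset.prod_const]
  have hS0 : ∏ l ∈ S, v (I l) ≠ 0 := Finset.prod_ne_zero_iff.2 fun l _ => hv0 _
  have hrel2 : (∏ l ∈ S, v (cjS (I l))) ^ (1 * N) * β ^ N =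
      q ^ (((1 : ℕ) : ℤ) * N * (S.card + P.parts.card - e)) := by
    have h1 : (∏ l ∈ S, v (cjS (I l))) ^ N * (β ^ N * (q ^ e) ^ N) =
        (q ^ (S.card + P.parts.card)) ^ N := by
      rw [← hrel', ← mul_pow, ← mul_assoc, mul_comm (∏ l ∈ S, v (cjS (I l))), hopp, ← pow_add]
    rw [one_mul, Nat.cast_one, one_mul]
    apply mul_right_cancel₀ (pow_ne_zero N (pow_ne_zero e hqQ))
    rw [mul_assoc, h1, ← pow_mul, ← pow_mul, ← zpow_natCast q, ← zpow_natCast q,
      ← zpow_add₀ hqQ]
    congr 1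
    push_cast
    ring
  let m : ℕ := S.card
  have hm : 0 < m := Finset.card_pos.2 hne
  let f : Fin m ≃ S := (Finset.equivFin S).symm
  have hprod : ∏ l ∈ S, v (cjS (I l)) = ∏ i : Fin m, v (cjS (I (f i))) := by
    rw [← Finset.prod_coe_sort]
    exact (Fintype.prod_equiv f _ _ fun i => rfl).symm
  rw [hprod] at hrel2
  have hroots : ∀ i : Fin m, aeval (v (cjS (I (f i)))) (minpoly ℤ (π (I (f i)).1)) = 0 :=
    fun i => H.root (I (f i)).1 (cjS (I (f i))).2
  have hneq : ∀ i j : Fin m, i ≠ j → v (cjS (I (f i))) * v (cjS (I (f j))) ≠ q := by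
    intro i j hij h
    have h1 : (f i : κ) ≠ f j := fun h => hij (f.injective (Subtype.ext h))
    apply hop _ (f i).2 _ (f j).2 h1
    have h2 := hv (cjS (I (f i)))
    rw [← h2] at h
    have h3 := mul_left_cancel₀ (hv0 _) h
    have h4 := H.inj h3
    rw [cjS_cjS] at h4
    rw [← h4, cjS_cjS]
  have hshort := Pool.Agent.KS6_5.OF.short_of_relation ha H.family hw (fun i => (I (f i)).1)
    (fun i => v (cjS (I (f i)))) hroots hneq (ne_zero_of_root hP.1 hβ) (hP.2 β hβ).1
    (m := 1 * N) (N := N) (by simpa using hN) (by simp) hrel2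
  exact (hP.2 β hβ).2 m (fun i => (I (f i)).1) (fun i => v (cjS (I (f i)))) hm hroots hneq hshort
    (1 * N) N (by simpa using hN) hN _ hrel2

/-- the relations between the values in a field -/
theorem balanced_L (ha : 0 < a) (H : IsSeparatedNumbers p a δ π) {w : ℝ} (hw : 0 ≤ w)
    {χ : ℚ[X]} (hχ : χ ≠ 0) (hP : NarrowUnrelated p a w δ (fun i => minpoly ℤ (π i)) χ)
    (L : IntermediateField ℚ Qb) {κ : Type*} [Fintype κ] [DecidableEq (Σ i, (E i →+* L))]
    (I : κ → Σ i, (E i →+* L)) (N : ℕ) (hN : 0 < N) (β : L) (hβ : aeval (β : Qb) χ = 0) (e : ℕ)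
    (hrel : ∏ l, (val π (I l)) ^ N = β ^ N * (((p : L) ^ a) ^ e) ^ N) (x : Σ i, (E i →+* L)) :
    (Finset.univ.filter (fun l => I l = x)).card =
      (Finset.univ.filter (fun l => I l = bar x)).card := by
  classical
  let J : (Σ i, (E i →+* L)) → Σ i, (E i →+* Qb) := fun x => ⟨x.1, (L.val : L →+* Qb).comp x.2⟩
  have hJ : Function.Injective J := by
    rintro ⟨a, φ⟩ ⟨b, ψ⟩ h
    simp only [J, Sigma.mk.injEq] at h
    obtain ⟨rfl, h⟩ := h
    have h1 : φ = ψ := by
      ext x
      exact RingHom.congr_fun (eq_of_heq h) x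
    rw [h1]
  have hJb : ∀ x, J (bar x) = cjS (J x) := fun x => rfl
  have h1 := balanced_family ha H hw hχ hP (fun l => J (I l)) N hN (β : Qb) hβ e (by
    have h2 := congrArg (L.val : L →ₐ[ℚ] Qb) hrel
    rw [map_prod, map_mul, map_pow, map_pow, map_pow, map_pow, map_natCast] at h2
    rw [Nat.cast_pow]
    rw [show (β : Qb) = L.val β from rfl, ← h2]
    refine Finset.prod_congr rfl fun l _ => ?_
    rw [map_pow]
    rfl) (J x)
  have h11 : ∀ x : Σ i, (E i →+* L), (Finset.univ.filter (fun l => I l = x)).card =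
      (Finset.univ.filter (fun l => J (I l) = J x)).card := by
    intro x
    congr 1
    ext l
    simp only [Finset.mem_filter, Finset.mem_univ, true_and]
    exact ⟨fun h => by rw [h], fun h => hJ h⟩
  rw [h11, h11, hJb]
  exact h1

theorem neat_of_family (ha : 0 < a) (H : IsSeparatedNumbers p a δ π)
    (L : IntermediateField ℚ Qb) : Neat p a π L := by
  classical
  intro m M hM I hprod y
  refine balanced_L ha H (w := 0) le_rfl (χ := X - 1) (X_sub_C_ne_zero 1)
    (narrow_one ha H.family le_rfl) L I M hM 1 (by simp) m ?_ y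
  rw [hprod, one_pow, one_mul, pow_mul ((p : L) ^ a)]

theorem forces_of_family (ha : 0 < a) (H : IsSeparatedNumbers p a δ π) {w : ℝ} (hw : 0 ≤ w)
    {χ : ℚ[X]} (hχ : χ ≠ 0) (hP : NarrowUnrelated p a w δ (fun i => minpoly ℤ (π i)) χ)
    (L : IntermediateField ℚ Qb) [NumberField L] (β : L) (hβ : aeval β χ = 0) (i : ι) :
    Forces π β i := by
  classical
  intro K N I hN hprod φ
  refine balanced_L ha H hw hχ hP L I N hN β ?_ 0 ?_ ⟨i, φ⟩
  · have h1 := Polynomial.aeval_algHom_apply L.val β χ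
    rw [hβ, map_zero] at h1
    exact h1
  · rw [pow_zero, one_pow, mul_one, ← hprod]

/-- **The splitting of the Tate classes.** -/
theorem split_of_family [Fintype ι] (ha : 0 < a) (H : IsSeparatedNumbers p a δ π) {w : ℝ}
    (hw : 0 ≤ w)
    {k : Type} [Field k] [CharZero k] {V : Type} [AddCommGroup V] [Module k V]
    [FiniteDimensional k V] {M : Type} [AddCommGroup M] [Module k M] [FiniteDimensional k M]
    {Γ : Type} [Group Γ] (ρ : Representation k Γ V) (τ : Representation k Γ M) (ψ : Γ →* k)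
    (γ : Γ) (hp : IsPolarised ρ ψ γ p a π) (χ : ℚ[X]) (hχ : χ ≠ 0)
    (hχγ : Polynomial.aeval (τ γ) (χ.map (algebraMap ℚ k)) = 0)
    (hP : NarrowUnrelated p a w δ (fun i => minpoly ℤ (π i)) χ) : ClassesSplit ρ ψ τ := by
  refine split_of_forces H.generates H.weight (fun L => neat_of_family ha H L) ρ τ ψ γ hp χ hχ
    hχγ ?_
  intro L _ β hβ i
  exact forces_of_family ha H hw hχ hP L β hβ i

end

end Pool.Agent.KS6_5.OF
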