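import Pool.Agent.KS6_5.OF.Short

/-!
# Families of Weil numbers separated by signs: the condition on the relations with the other factor
-/

set_option autoImplicit false
set_option linter.unusedSectionVars false

namespace Pool.Agent.KS6_5.OF

open NumberField Polynomial Pool.Agent.TH121.KT Pool.Agent.KS6_5.SP Pool.Agent.KS6_5.OC
  Pool.Agent.KS6_5.OG Pool.Agent.Y1.CT Pool.Agent.Q64.L Pool.Agent.W484.HS

noncomputable section

variable {p : ℕ} [Fact p.Prime] {a : ℕ} {κ : Type} {δ : κ → ℝ} {P : κ → ℤ[X]}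

theorem ne_zero_of_root {χ : ℚ[X]} (h0 : χ.coeff 0 ≠ 0) {ρ : Qb} (hρ : aeval ρ χ = 0) : ρ ≠ 0 := by
  rintro rfl
  rw [aeval_def, eval₂_at_zero] at hρ
  exact h0 ((_root_.map_eq_zero _).1 hρ)

/-- **The relations over the complex numbers.** -/
theorem pair_complex (ha : 0 < a) (H : IsSeparatedFamily p a δ P) {w : ℝ} (hw : 0 ≤ w)
    (s : ℕ) (hs : 0 < s) {χ : ℚ[X]} (hχ : χ ≠ 0) (hP : NarrowUnrelated p a w δ P χ) (ρ : ℂ)
    (hρ : aeval ρ χ = 0) :
    ExactPairK (fun z : {z : ℂ // ∃ i, aeval z (P i) = 0} => (z : ℂ) ^ s)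
      (((p ^ a : ℕ) : ℂ) ^ s) ρ := by
  classical
  let τ : Qb →+* ℂ := (IsAlgClosed.lift : Qb →ₐ[ℚ] ℂ).toRingHom
  obtain ⟨γ, hγχ, hγ⟩ := exists_root τ hχ hρ
  have hlab : ∀ z : {z : ℂ // ∃ i, aeval z (P i) = 0},
      ∃ (k : κ) (x : Qb), aeval x (P k) = 0 ∧ τ x = z := by
    rintro ⟨z, i, hz⟩
    have h1 : (P i).map (algebraMap ℤ ℚ) ≠ 0 := ((H.monic i).map _).ne_zero
    obtain ⟨x, hx, hxz⟩ := exists_root τ h1 (show aeval z ((P i).map (algebraMap ℤ ℚ)) = 0 by
      rwa [aeval_map_algebraMap])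
    exact ⟨i, x, by rwa [aeval_map_algebraMap] at hx, hxz⟩
  choose lk lx hlx hτ using hlab
  intro n c N hN hn ys hlen hrel hpw
  have hn' : 0 < ys.length := by omega
  have hrel1 : (∏ i : Fin ys.length, lx ys[i]) ^ (s * N) * γ ^ N =
      ((p ^ a : ℕ) : Qb) ^ ((s : ℤ) * N * c) := by
    apply τ.injective
    rw [map_mul, map_pow, map_pow, hγ, map_zpow₀, map_natCast, map_prod]
    rw [prod_getElem, mul_pow] at hrel
    rw [show ((s : ℤ) * N * c) = (s : ℤ) * (c * N) by ring, zpow_mul, zpow_natCast,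
      zpow_mul, zpow_natCast, ← hrel]
    congr 1
    rw [← Finset.prod_pow, ← Finset.prod_pow]
    refine Finset.prod_congr rfl fun i _ => ?_
    rw [pow_mul, hτ]
  have hne : ∀ i j : Fin ys.length, i ≠ j → lx ys[i] * lx ys[j] ≠ ((p ^ a : ℕ) : Qb) := by
    have key : ∀ i j : Fin ys.length, i < j → lx ys[i] * lx ys[j] ≠ ((p ^ a : ℕ) : Qb) := by
      intro i j hij h
      have h1 := List.pairwise_iff_getElem.1 hpw i j i.2 j.2 hij
      apply h1
      have h2 := congrArg (fun x => (τ x) ^ s) h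
      simp only [map_mul, map_natCast, mul_pow, hτ] at h2
      exact h2
    intro i j hij
    rcases lt_or_gt_of_ne hij with h | h
    · exact key i j h
    · rw [mul_comm]
      exact key j i h
  have hshort := short_of_relation ha H hw (fun i => lk ys[i]) (fun i => lx ys[i])
    (fun i => hlx _) hne (ne_zero_of_root hP.1 hγχ) (hP.2 γ hγχ).1 (Nat.mul_pos hs hN)
    (Nat.le_mul_of_pos_left N hs) hrel1
  exact (hP.2 γ hγχ).2 _ (fun i => lk ys[i]) (fun i => lx ys[i]) hn' (fun i => hlx _) hne hshort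
    (s * N) N (Nat.mul_pos hs hN) hN _ hrel1

theorem noShortRelation_zero (δ : κ → ℝ) (P : κ → ℤ[X]) (hδ : ∀ k, 0 < δ k) (q : ℕ) (ρ : Qb) :
    NoShortRelation q 0 δ P ρ :=
  noShortRelation_of_lt le_rfl (fun k => mul_pos two_pos (hδ k)) ρ

theorem narrow_one (ha : 0 < a) (H : IsSeparatedFamily p a δ P) {w : ℝ} (hw : 0 ≤ w) :
    NarrowUnrelated p a w δ P (X - 1) := by
  have hq1 : 1 ≤ p ^ a := pow_pos (Fact.out : p.Prime).pos _
  have hlq : 0 ≤ Real.log ((p ^ a : ℕ) : ℝ) := Real.log_nonneg (by exact_mod_cast hq1)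
  have hzero : ∀ w' : ℝ, 0 ≤ w' → SlopesInInterval p (p ^ a) w' 1 := by
    intro w' hw'
    refine ⟨0, fun l => ?_⟩
    rw [map_one, norm_one, Real.log_one, sub_zero, abs_zero, mul_zero]
    positivity
  refine ⟨by simp, fun ρ hρ => ?_⟩
  have h1 : ρ = 1 := by
    rw [map_sub, aeval_X, map_one, sub_eq_zero] at hρ
    exact hρ
  subst h1
  refine ⟨hzero w hw, ?_⟩
  intro n k z hn hz hne _ m N hm hN c hrel
  rw [one_pow, mul_one] at hrel
  have h2 := short_of_relation (w := 0) ha H le_rfl k z hz hne one_ne_zero (hzero 0 le_rfl) hm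
    (le_refl m) (by rw [one_pow, mul_one]; exact hrel)
  have h3 : 0 < ∑ i, (2 * δ (k i)) ^ 2 :=
    Finset.sum_pos (fun i _ => pow_pos (mul_pos two_pos (H.pos _)) 2) ⟨⟨0, hn⟩, Finset.mem_univ _⟩
  rw [zero_pow two_ne_zero] at h2
  exact absurd h2 (not_le.2 h3)

/-- **Separated families are good.** -/
theorem good_separated (ha : 0 < a) (H : IsSeparatedFamily p a δ P) {w : ℝ} (hw : 0 ≤ w) :
    Good (NarrowUnrelated p a w δ P) (p ^ a) P where
  monic := H.monic
  one := narrow_one ha H hw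
  coeff := fun χ h => h.1
  pair := fun _ _ _ s hs χ hχ hP ρ hρ =>
    exactPair_field P H.monic (p ^ a) s χ hχ
      (fun ρ hρ => pair_complex ha H hw s hs hχ hP ρ hρ) ρ hρ

end

end Pool.Agent.KS6_5.OF
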