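import Pool.Agent.KS6_5.OF.Fields
import Pool.Agent.KS6_5.OF.Crit
import Pool.Agent.KS6_5.OG.Torus

/-!
# Weil numbers in CM fields separated by signs: criteria
-/

set_option autoImplicit false
set_option linter.unusedSectionVars false

namespace Pool.Agent.KS6_5.OF

open NumberField Polynomial IntermediateField Pool.Agent.TH121.KT Pool.Agent.KS6_5.OC
  Pool.Agent.KS6_5.OG

noncomputable section

variable {p : ℕ} [hp : Fact p.Prime] {a : ℕ}

/-- the roots of the minimal polynomial are the conjugates -/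
theorem exists_embedding {E : Type} [Field E] [NumberField E] {x : E} (hx : IsIntegral ℤ x)
    (hgen : ℚ⟮x⟯ = ⊤) {z : Qb} (hz : aeval z (minpoly ℤ x) = 0) : ∃ φ : E →+* Qb, φ x = z := by
  have hxQ : IsIntegral ℚ x := Algebra.IsIntegral.isIntegral x
  have h1 : minpoly ℚ x = (minpoly ℤ x).map (algebraMap ℤ ℚ) :=
    minpoly.isIntegrallyClosed_eq_field_fractions' ℚ hx
  have h2 : z ∈ (minpoly ℚ x).aroots Qb := by
    rw [mem_aroots]
    refine ⟨minpoly.ne_zero hxQ, ?_⟩
    rw [h1, aeval_map_algebraMap]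
    exact hz
  let ψ : ℚ⟮x⟯ →ₐ[ℚ] Qb := (IntermediateField.algHomAdjoinIntegralEquiv ℚ hxQ).symm ⟨z, h2⟩
  have hψ : ψ (IntermediateField.AdjoinSimple.gen ℚ x) = z :=
    IntermediateField.algHomAdjoinIntegralEquiv_symm_apply_gen ℚ hxQ ⟨z, h2⟩
  let e : ℚ⟮x⟯ ≃ₐ[ℚ] E := (IntermediateField.equivOfEq hgen).trans IntermediateField.topEquiv
  refine ⟨(ψ.comp (e.symm : E →ₐ[ℚ] ℚ⟮x⟯)).toRingHom, ?_⟩
  have h3 : e.symm x = IntermediateField.AdjoinSimple.gen ℚ x := by
    rw [AlgEquiv.symm_apply_eq]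
    rfl
  change ψ (e.symm x) = z
  rw [h3, hψ]

/-- The Weil numbers `π i` for `p ^ a` generate the CM fields `E i` and are not conjugate to each
other; the mean of the `(2 s - 1) ^ 2` over the slopes `s` of `π i` is at least `(2 δ i) ^ 2 > 0`; the
automorphisms which fix a conjugate `z` of `π i` permute the conjugates different from `z` and `q / z`
transitively (`TransitiveOnOthers`); and for `i ≠ j` the automorphisms which fix a conjugate of one of
the numbers `π i`, `π j` permute the conjugates of the other one transitively (`TransitiveOver`). -/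
structure IsTransitiveNumbers (p : ℕ) [Fact p.Prime] (a : ℕ) {ι : Type} (δ : ι → ℝ) {E : ι → Type}
    [∀ i, Field (E i)] [∀ i, NumberField (E i)] [∀ i, IsCMField (E i)] (π : ∀ i, E i) : Prop where
  integral : ∀ i, IsIntegral ℤ (π i)
  generates : ∀ i, ℚ⟮π i⟯ = ⊤
  weight : ∀ i, π i * IsCMField.complexConj (E i) (π i) = (p : E i) ^ a
  different : ∀ i j, i ≠ j → minpoly ℤ (π i) ≠ minpoly ℤ (π j)
  pos : ∀ i, 0 < δ i
  slopes : ∀ i, ((minpoly ℤ (π i)).natDegree : ℝ) * (2 * δ i) ^ 2 ≤
    (((minpoly ℤ (π i)).aroots (PadicAlgCl p)).map fun y =>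
      (2 * Real.log ‖y‖ / Real.log (p ^ a : ℕ) + 1) ^ 2).sum
  others : ∀ i, TransitiveOnOthers (p ^ a) (minpoly ℤ (π i))
  pairs : ∀ i j, i ≠ j → TransitiveOver (minpoly ℤ (π i)) (minpoly ℤ (π j)) ∨
    TransitiveOver (minpoly ℤ (π j)) (minpoly ℤ (π i))

/-- **The criterion.** -/
theorem numbers_of_transitive (ha : 0 < a) {ι : Type} {δ : ι → ℝ} {E : ι → Type}
    [∀ i, Field (E i)] [∀ i, NumberField (E i)] [∀ i, IsCMField (E i)] (π : ∀ i, E i)
    (H : IsTransitiveNumbers p a δ π) : IsSeparatedNumbers p a δ π where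
  generates := H.generates
  weight := H.weight
  different := H.different
  family := by
    refine family_of_transitive ha H.pos (fun i => minpoly.monic (H.integral i))
      (fun i => (minpoly.prime_of_isIntegrallyClosed (H.integral i)).irreducible) ?_ H.slopes
      H.others H.pairs
    intro i z hz ψ
    obtain ⟨φ, rfl⟩ := exists_embedding (H.integral i) (H.generates i) hz
    have h1 := congrArg (fun x => (ψ.comp φ) x) (H.weight i)
    simp only [map_mul, map_pow, map_natCast] at h1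
    rw [← conjugate_apply, ComplexEmbedding.conjugate_coe_eq, Complex.mul_conj,
      Complex.normSq_eq_norm_sq] at h1
    change ‖(ψ.comp φ) (π i)‖ ^ 2 = _
    rw [Nat.cast_pow]
    exact_mod_cast h1

/-- **Ordinary elliptic curves over different quadratic fields.** -/
theorem ell_separated_numbers (ha : 0 < a) {ι : Type} {E : ι → Type} [∀ i, Field (E i)]
    [∀ i, NumberField (E i)] [∀ i, IsCMField (E i)] (π : ∀ i, E i) (hgen : ∀ i, ℚ⟮π i⟯ = ⊤)
    (b : ι → ℤ) (hmin : ∀ i, minpoly ℤ (π i) = ellPoly (p ^ a) (b i))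
    (hb : ∀ i, ¬ (p : ℤ) ∣ b i) (hd : ∀ i, b i ^ 2 < 4 * (p ^ a : ℕ))
    (h : ∀ i j, i ≠ j →
      ¬ IsSquare ((b i ^ 2 - 4 * (p ^ a : ℕ)) * (b j ^ 2 - 4 * (p ^ a : ℕ)))) :
    IsSeparatedNumbers p a (fun _ : ι => 1 / 2) π where
  generates := hgen
  weight i := ell_weight (hgen i) (hmin i)
  different i j hij hm := by
    rw [hmin, hmin] at hm
    have h1 : b i = b j := by
      have h2 := congrArg (fun P : ℤ[X] => P.coeff 1) hm
      simpa [ellPoly, coeff_C] using h2
    apply h i j hij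
    rw [h1]
    exact ⟨_, rfl⟩
  family := by
    have h1 := ell_separated_family (p := p) ha b hb hd (fun k l => by
      by_cases hkl : k = l
      · exact Or.inl (by rw [hkl])
      · exact Or.inr (h k l hkl))
    rwa [show (fun i => minpoly ℤ (π i)) = fun i => ellPoly (p ^ a) (b i) from funext hmin]

end

end Pool.Agent.KS6_5.OF
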