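import Pool.Agent.KS6_5.OF.Defs
import Pool.Agent.KS6_5.OG.Good

/-!
# Families of Weil numbers separated by signs: relations are short
-/

set_option autoImplicit false
set_option linter.unusedSectionVars false

namespace Pool.Agent.KS6_5.OF

open NumberField Polynomial Pool.Agent.TH121.KT Pool.Agent.KS6_5.SP Pool.Agent.KS6_5.OC
  Pool.Agent.KS6_5.OG

noncomputable section

variable {p : ℕ} [Fact p.Prime] {a : ℕ} {κ : Type} {δ : κ → ℝ} {P : κ → ℤ[X]}

/-- the logarithm of the absolute value of `z ^ 2 / q` -/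
def lv (a : ℕ) (l : Qb →+* PadicAlgCl p) (z : Qb) : ℝ :=
  2 * Real.log ‖l z‖ + Real.log ((p ^ a : ℕ) : ℝ)

theorem IsSeparatedFamily.ne_zero (H : IsSeparatedFamily p a δ P) {k : κ} {z : Qb}
    (hz : aeval z (P k) = 0) : z ≠ 0 := by
  obtain ⟨φ⟩ : Nonempty (Qb →ₐ[ℚ] ℂ) := ⟨IsAlgClosed.lift⟩
  rintro rfl
  have h1 := H.weil k 0 hz φ.toRingHom
  rw [map_zero, norm_zero, zero_pow two_ne_zero] at h1
  have h2 : (p ^ a : ℕ) ≠ 0 := pow_ne_zero _ (Fact.out : p.Prime).ne_zero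
  exact h2 (by exact_mod_cast h1.symm)

theorem IsSeparatedFamily.exists_conj (H : IsSeparatedFamily p a δ P) : ∃ c : GQ, ∀ (k : κ) (z : Qb),
    aeval z (P k) = 0 → z * c z = ((p ^ a : ℕ) : Qb) := by
  obtain ⟨φ₀⟩ : Nonempty (Qb →ₐ[ℚ] ℂ) := ⟨IsAlgClosed.lift⟩
  let φ : Qb →+* ℂ := φ₀.toRingHom
  obtain ⟨k, hk⟩ := exists_aut φ ((starRingEnd ℂ).comp φ)
  refine ⟨k, fun i z hz => φ.injective ?_⟩
  rw [map_mul, ← hk, map_natCast]
  have h1 := H.weil i z hz φ
  change φ z * (starRingEnd ℂ) (φ z) = _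
  rw [Complex.mul_conj, Complex.normSq_eq_norm_sq, h1]
  simp

theorem log_q (l : Qb →+* PadicAlgCl p) :
    Real.log ‖l ((p ^ a : ℕ) : Qb)‖ = - Real.log ((p ^ a : ℕ) : ℝ) := by
  rw [norm_cast_q, Real.log_inv]

theorem lv_conj {l : Qb →+* PadicAlgCl p} {z z' : Qb} (hz : z ≠ 0) (hz' : z' ≠ 0) {m : ℕ}
    (hm : 0 < m) (h : (z * z') ^ m = ((p ^ a : ℕ) : Qb) ^ m) : lv a l z' = - lv a l z := by
  have h1 := congrArg (fun x => Real.log ‖l x‖) h
  simp only [map_pow, map_mul, norm_pow, norm_mul, Real.log_pow] at h1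
  have hm' : (m : ℝ) ≠ 0 := Nat.cast_ne_zero.2 hm.ne'
  have h2 := mul_left_cancel₀ hm' h1
  rw [log_q, Real.log_mul (norm_ne_zero_iff.2 ((_root_.map_ne_zero l).2 hz))
    (norm_ne_zero_iff.2 ((_root_.map_ne_zero l).2 hz'))] at h2
  unfold lv
  linarith

theorem lv_pow {l : Qb →+* PadicAlgCl p} {z z' : Qb} {m : ℕ} (hm : 0 < m) (h : z ^ m = z' ^ m) :
    lv a l z = lv a l z' := by
  have h1 := congrArg (fun x => Real.log ‖l x‖) h
  simp only [map_pow, norm_pow, Real.log_pow] at h1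
  have hm' : (m : ℝ) ≠ 0 := Nat.cast_ne_zero.2 hm.ne'
  have h2 := mul_left_cancel₀ hm' h1
  unfold lv
  rw [h2]

/-- the roots are conjugate to each other -/
theorem IsSeparatedFamily.exists_map (H : IsSeparatedFamily p a δ P) {k : κ} {z y : Qb}
    (hz : aeval z (P k) = 0) (hy : aeval y (P k) = 0) : ∃ g : GQ, g z = y := by
  have hint : ∀ x : Qb, aeval x (P k) = 0 → IsIntegral ℤ x := fun x hx => ⟨P k, H.monic k, hx⟩
  have hmin : ∀ x : Qb, aeval x (P k) = 0 → minpoly ℤ x = P k := by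
    intro x hx
    have h1 := minpoly.isIntegrallyClosed_dvd (hint x hx) hx
    have h2 : Associated (minpoly ℤ x) (P k) :=
      (H.irreducible k).dvd_iff.1 h1 |>.resolve_left (minpoly.not_isUnit ℤ x) |>.symm
    exact eq_of_monic_of_associated (minpoly.monic (hint x hx)) (H.monic k) h2
  have hmin' : minpoly ℚ z = minpoly ℚ y := by
    rw [minpoly.isIntegrallyClosed_eq_field_fractions' ℚ (hint z hz),
      minpoly.isIntegrallyClosed_eq_field_fractions' ℚ (hint y hy), hmin z hz, hmin y hy]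
  exact minpoly.exists_algEquiv_of_root (Algebra.IsAlgebraic.isAlgebraic y) (by
    rw [← hmin', minpoly.aeval])

theorem aroots_aut (Q : ℤ[X]) (g : GQ) : (Q.aroots Qb).map g = Q.aroots Qb := by
  have h1 : ((Q.map (algebraMap ℤ Qb)).roots).map (g : Qb →+* Qb) =
      ((Q.map (algebraMap ℤ Qb)).map (g : Qb →+* Qb)).roots :=
    ((IsAlgClosed.splits (Q.map (algebraMap ℤ Qb))).roots_map_of_injective
      (g : Qb →+* Qb).injective).symm
  rw [Polynomial.map_map, show ((g : Qb →+* Qb).comp (algebraMap ℤ Qb)) = algebraMap ℤ Qb from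
    RingHom.ext_int _ _] at h1
  exact h1

theorem aroots_padic (Q : ℤ[X]) (l : Qb →+* PadicAlgCl p) :
    (Q.aroots Qb).map l = Q.aroots (PadicAlgCl p) := by
  have h1 : ((Q.map (algebraMap ℤ Qb)).roots).map l =
      ((Q.map (algebraMap ℤ Qb)).map l).roots :=
    ((IsAlgClosed.splits (Q.map (algebraMap ℤ Qb))).roots_map_of_injective l.injective).symm
  rw [Polynomial.map_map, show (l.comp (algebraMap ℤ Qb)) = algebraMap ℤ (PadicAlgCl p) from
    RingHom.ext_int _ _] at h1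
  exact h1

/-- **The mean square bound.** -/
theorem mean_square (ha : 0 < a) (H : IsSeparatedFamily p a δ P) {n : ℕ} (k : Fin n → κ)
    (z : Fin n → Qb) (hz : ∀ i, aeval (z i) (P (k i)) = 0)
    (hne : ∀ i j, i ≠ j → z i * z j ≠ ((p ^ a : ℕ) : Qb)) (ι : Qb →+* PadicAlgCl p) {B : ℝ}
    (hB : ∀ g : GQ, |∑ i, lv a (ι.comp (g : Qb →+* Qb)) (z i)| ≤ B) :
    ∑ i, ((2 * δ (k i)) * Real.log ((p ^ a : ℕ) : ℝ)) ^ 2 ≤ B ^ 2 := by
  classical
  have hq1 : 1 < p ^ a := Nat.one_lt_pow ha.ne' (Fact.out : p.Prime).one_lt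
  set L : ℝ := Real.log ((p ^ a : ℕ) : ℝ) with hL
  have hL0 : 0 < L := Real.log_pos (by exact_mod_cast hq1)
  have hz0 : ∀ i, z i ≠ 0 := fun i => H.ne_zero (hz i)
  -- the finite set of all roots
  let A : Finset Qb := Finset.univ.biUnion fun i : Fin n => ((P (k i)).aroots Qb).toFinset
  have hA : ∀ y : Qb, y ∈ A ↔ ∃ i, aeval y (P (k i)) = 0 := by
    intro y
    simp only [A, Finset.mem_biUnion, Finset.mem_univ, true_and, Multiset.mem_toFinset,
      mem_aroots]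
    exact ⟨fun ⟨i, h⟩ => ⟨i, h.2⟩, fun ⟨i, h⟩ => ⟨i, (H.monic _).ne_zero, h⟩⟩
  have hAg : ∀ (g : GQ) (y : Qb), y ∈ A → g y ∈ A := by
    intro g y hy
    rw [hA] at hy ⊢
    obtain ⟨i, h⟩ := hy
    exact ⟨i, aeval_aut h g⟩
  let X : Type := {y : Qb // y ∈ A}
  let ac : GQ →* Equiv.Perm X :=
    { toFun := fun g =>
        { toFun := fun y => ⟨g y.1, hAg g y.1 y.2⟩
          invFun := fun y => ⟨g⁻¹ y.1, hAg g⁻¹ y.1 y.2⟩
          left_inv := fun y => Subtype.ext (by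
            change (g⁻¹ * g) y.1 = y.1
            rw [inv_mul_cancel]
            rfl)
          right_inv := fun y => Subtype.ext (by
            change (g * g⁻¹) y.1 = y.1
            rw [mul_inv_cancel]
            rfl) }
      map_one' := Equiv.ext fun y => rfl
      map_mul' := fun g h => Equiv.ext fun y => rfl }
  let Γ : Subgroup (Equiv.Perm X) := ac.range
  have hfinX : Finite X := inferInstance
  have hfin : Finite (Equiv.Perm X) := inferInstance
  let _ : Fintype Γ := Fintype.ofFinite Γ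
  have hcard : (0 : ℝ) < Fintype.card Γ := Nat.cast_pos.2 Fintype.card_pos
  -- representatives
  have hrep : ∀ γ : Γ, ∃ g : GQ, ac g = γ.1 := fun γ => γ.2
  choose r hr using hrep
  let h : Γ → Qb → ℝ := fun γ y => lv a (ι.comp (r γ : Qb →+* Qb)) y
  have hmul : ∀ (γ : Γ) (g : GQ) (y : Qb), y ∈ A →
      h (γ * ⟨ac g, g, rfl⟩) y = h γ (g y) := by
    intro γ g y hy
    have h1 : ac (r (γ * ⟨ac g, g, rfl⟩)) = ac (r γ * g) := by
      rw [hr, map_mul, hr]
      rfl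
    have h2 : (r (γ * ⟨ac g, g, rfl⟩)) y = (r γ) (g y) := by
      have h3 := congrArg Subtype.val (DFunLike.congr_fun h1 (⟨y, hy⟩ : X))
      exact h3
    simp only [h, lv]
    change 2 * Real.log ‖ι ((r (γ * ⟨ac g, g, rfl⟩)) y)‖ + _ =
      2 * Real.log ‖ι ((r γ) (g y))‖ + _
    rw [h2]
  have hshift : ∀ (g : GQ) (y y' : Qb), y ∈ A → y' ∈ A →
      ∑ γ : Γ, h γ (g y) * h γ (g y') = ∑ γ : Γ, h γ y * h γ y' := by
    intro g y y' hy hy'
    symm
    refine (Fintype.sum_equiv (Equiv.mulRight (⟨ac g, g, rfl⟩ : Γ)) _ _ fun γ => ?_).symm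
    change h γ (g y) * h γ (g y') = h (γ * ⟨ac g, g, rfl⟩) y * h (γ * ⟨ac g, g, rfl⟩) y'
    rw [hmul γ g y hy, hmul γ g y' hy']
  have hzA : ∀ i, z i ∈ A := fun i => (hA _).2 ⟨i, hz i⟩
  -- the diagonal
  have hdiag : ∀ i, (Fintype.card Γ : ℝ) * ((2 * δ (k i)) * L) ^ 2 ≤
      ∑ γ : Γ, h γ (z i) * h γ (z i) := by
    intro i
    set T := (P (k i)).aroots Qb with hT
    have hTcard : Multiset.card T = (P (k i)).natDegree := by
      rw [hT, aroots_def, ← (IsAlgClosed.splits ((P (k i)).map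
        (algebraMap ℤ Qb))).natDegree_eq_card_roots, (H.monic _).natDegree_map]
    have hTmem : ∀ y ∈ T, aeval y (P (k i)) = 0 := fun y hy => (mem_aroots.1 hy).2
    have h1 : ∀ y ∈ T, ∑ γ : Γ, h γ y * h γ y = ∑ γ : Γ, h γ (z i) * h γ (z i) := by
      intro y hy
      obtain ⟨g, rfl⟩ := H.exists_map (hz i) (hTmem y hy)
      exact hshift g _ _ (hzA i) (hzA i)
    have h2 : (T.map fun y => ∑ γ : Γ, h γ y * h γ y).sum =
        (P (k i)).natDegree * ∑ γ : Γ, h γ (z i) * h γ (z i) := by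
      rw [Multiset.map_congr rfl h1, Multiset.map_const', Multiset.sum_replicate, hTcard,
        nsmul_eq_mul]
    have h3 : ∀ γ : Γ, (T.map fun y => h γ y * h γ y).sum =
        (((P (k i)).aroots (PadicAlgCl p)).map fun y =>
          (2 * Real.log ‖y‖ / L + 1) ^ 2).sum * L ^ 2 := by
      intro γ
      rw [← aroots_padic (P (k i)) (ι.comp (r γ : Qb →+* Qb)), Multiset.map_map,
        ← Multiset.sum_map_mul_right]
      congr 1
      refine Multiset.map_congr rfl fun y _ => ?_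
      simp only [h, lv, Function.comp]
      rw [← hL]
      field_simp
    have h4 : (T.map fun y => ∑ γ : Γ, h γ y * h γ y).sum =
        ∑ γ : Γ, (T.map fun y => h γ y * h γ y).sum := by
      have key : ∀ T' : Multiset Qb, (T'.map fun y => ∑ γ : Γ, h γ y * h γ y).sum =
          ∑ γ : Γ, (T'.map fun y => h γ y * h γ y).sum := by
        intro T'
        induction T' using Multiset.induction_on with
        | empty => simp
        | cons y T' ih =>
          rw [Multiset.map_cons, Multiset.sum_cons, ih, ← Finset.sum_add_distrib]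
          refine Finset.sum_congr rfl fun γ _ => ?_
          rw [Multiset.map_cons, Multiset.sum_cons]
      exact key T
    have h5 : ((P (k i)).natDegree : ℝ) * ∑ γ : Γ, h γ (z i) * h γ (z i) =
        Fintype.card Γ * ((((P (k i)).aroots (PadicAlgCl p)).map fun y =>
          (2 * Real.log ‖y‖ / L + 1) ^ 2).sum * L ^ 2) := by
      rw [← h2, h4, Finset.sum_congr rfl fun γ _ => h3 γ, Finset.sum_const, Finset.card_univ,
        nsmul_eq_mul]
    have hdeg : (0 : ℝ) < (P (k i)).natDegree := by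
      rw [← hTcard]
      exact Nat.cast_pos.2 (Multiset.card_pos_iff_exists_mem.2
        ⟨z i, mem_aroots.2 ⟨(H.monic _).ne_zero, hz i⟩⟩)
    have h6 := H.slopes (k i)
    rw [← hL] at h6
    have h7 : ((P (k i)).natDegree : ℝ) * (Fintype.card Γ * ((2 * δ (k i)) * L) ^ 2) ≤
        (P (k i)).natDegree * ∑ γ : Γ, h γ (z i) * h γ (z i) := by
      rw [h5]
      calc ((P (k i)).natDegree : ℝ) * (Fintype.card Γ * ((2 * δ (k i)) * L) ^ 2)
          = Fintype.card Γ * ((((P (k i)).natDegree : ℝ) * (2 * δ (k i)) ^ 2) * L ^ 2) := by ring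
        _ ≤ _ := by gcongr
    exact le_of_mul_le_mul_left h7 hdeg
  -- off the diagonal
  have hflip : ∀ i j, Flips (p ^ a) (z i) (z j) → 0 ≤ ∑ γ : Γ, h γ (z i) * h γ (z j) := by
    rintro i j ⟨g, m, hm, h1, h2⟩
    have h3 := hshift g (z i) (z j) (hzA i) (hzA j)
    have h4 : ∀ γ : Γ, h γ (g (z i)) * h γ (g (z j)) = -(h γ (z i) * h γ (z j)) := by
      intro γ
      have e1 : h γ (g (z i)) = h γ (z i) := lv_pow hm h1
      have e2 : h γ (g (z j)) = - h γ (z j) := by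
        rw [mul_comm] at h2
        exact lv_conj (hz0 j) ((map_ne_zero_iff g g.injective).2 (hz0 j)) hm h2
      rw [e1, e2, mul_neg]
    rw [Finset.sum_congr rfl fun γ _ => h4 γ, Finset.sum_neg_distrib] at h3
    linarith
  have hoff : ∀ i j, i ≠ j → 0 ≤ ∑ γ : Γ, h γ (z i) * h γ (z j) := by
    intro i j hij
    rcases H.separated (k i) (k j) (z i) (z j) (hz i) (hz j) with ⟨m, hm, h1⟩ | ⟨m, hm, h1⟩ | h1 | h1
    · refine Finset.sum_nonneg fun γ _ => ?_
      have h2 : h γ (z i) = h γ (z j) := lv_pow hm h1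
      rw [h2]
      exact mul_self_nonneg _
    · exact absurd (H.neat _ _ _ _ (hz i) (hz j) m hm h1) (hne i j hij)
    · exact hflip i j h1
    · have h2 := hflip j i h1
      simpa only [mul_comm] using h2
  -- the conclusion
  have h1 : ∑ γ : Γ, (∑ i, h γ (z i)) ^ 2 = ∑ i, ∑ j, ∑ γ : Γ, h γ (z i) * h γ (z j) := by
    have h2 : ∀ γ : Γ, (∑ i, h γ (z i)) ^ 2 = ∑ i, ∑ j, h γ (z i) * h γ (z j) := by
      intro γ
      rw [sq, Finset.sum_mul_sum]
    rw [Finset.sum_congr rfl fun γ _ => h2 γ, Finset.sum_comm]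
    refine Finset.sum_congr rfl fun i _ => ?_
    rw [Finset.sum_comm]
  have h2 : ∑ i, (Fintype.card Γ : ℝ) * ((2 * δ (k i)) * L) ^ 2 ≤
      ∑ i, ∑ j, ∑ γ : Γ, h γ (z i) * h γ (z j) := by
    refine Finset.sum_le_sum fun i _ => (hdiag i).trans ?_
    refine Finset.single_le_sum (f := fun j => ∑ γ : Γ, h γ (z i) * h γ (z j)) (fun j _ => ?_)
      (Finset.mem_univ i)
    by_cases hij : i = j
    · subst hij
      exact Finset.sum_nonneg fun γ _ => mul_self_nonneg _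
    · exact hoff i j hij
  have h3 : ∑ γ : Γ, (∑ i, h γ (z i)) ^ 2 ≤ ∑ _γ : Γ, B ^ 2 := by
    refine Finset.sum_le_sum fun γ _ => ?_
    have h4 := abs_le.1 (hB (r γ))
    exact sq_le_sq' h4.1 h4.2
  rw [Finset.sum_const, Finset.card_univ, nsmul_eq_mul] at h3
  rw [← Finset.mul_sum] at h2
  rw [h1] at h3
  exact le_of_mul_le_mul_left (h2.trans h3) hcard

/-- **Relations are short.** -/
theorem short_of_relation (ha : 0 < a) (H : IsSeparatedFamily p a δ P) {w : ℝ} (hw : 0 ≤ w)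
    {n : ℕ} (k : Fin n → κ) (z : Fin n → Qb) (hz : ∀ i, aeval (z i) (P (k i)) = 0)
    (hne : ∀ i j, i ≠ j → z i * z j ≠ ((p ^ a : ℕ) : Qb)) {ρ : Qb} (hρ : ρ ≠ 0)
    (hsl : SlopesInInterval p (p ^ a) w ρ) {m N : ℕ} (hm : 0 < m) (hN : N ≤ m) {c : ℤ}
    (hrel : (∏ i, z i) ^ m * ρ ^ N = ((p ^ a : ℕ) : Qb) ^ c) :
    ∑ i, (2 * δ (k i)) ^ 2 ≤ w ^ 2 := by
  classical
  obtain ⟨ιp⟩ : Nonempty (Qb →ₐ[ℚ] PadicAlgCl p) := ⟨IsAlgClosed.lift⟩
  let ι : Qb →+* PadicAlgCl p := ιp.toRingHom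
  have hq1 : 1 < p ^ a := Nat.one_lt_pow ha.ne' (Fact.out : p.Prime).one_lt
  set L : ℝ := Real.log ((p ^ a : ℕ) : ℝ) with hL
  have hL0 : 0 < L := Real.log_pos (by exact_mod_cast hq1)
  have hz0 : ∀ i, z i ≠ 0 := fun i => H.ne_zero (hz i)
  have hm' : (0 : ℝ) < m := Nat.cast_pos.2 hm
  obtain ⟨c₀, hc₀⟩ := hsl
  obtain ⟨kc, hkc⟩ := H.exists_conj
  let F : (Qb →+* PadicAlgCl p) → ℝ := fun l => ∑ i, lv a l (z i)
  have hF : ∀ l, m * F l = - (2 * N * Real.log ‖l ρ‖) + (m * n - 2 * c) * L := by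
    intro l
    have h1 := congrArg (fun x => Real.log ‖l x‖) hrel
    simp only [map_mul, map_pow, map_prod, map_zpow₀, norm_mul, norm_pow, norm_prod, norm_zpow]
      at h1
    have hn0 : ∀ x : Qb, x ≠ 0 → ‖l x‖ ≠ 0 := fun x hx =>
      norm_ne_zero_iff.2 ((_root_.map_ne_zero l).2 hx)
    rw [Real.log_mul (pow_ne_zero _ (Finset.prod_ne_zero_iff.2 fun i _ => hn0 _ (hz0 i)))
      (pow_ne_zero _ (hn0 _ hρ)), Real.log_pow, Real.log_pow, Real.log_zpow, log_q, ← hL,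
      Real.log_prod (fun i _ => hn0 _ (hz0 i))] at h1
    simp only [F, lv]
    rw [Finset.sum_add_distrib, ← Finset.mul_sum, Finset.sum_const, Finset.card_univ,
      Fintype.card_fin, nsmul_eq_mul, ← hL]
    linear_combination 2 * h1
  have hconj : ∀ l : Qb →+* PadicAlgCl p, F (l.comp (kc : Qb →+* Qb)) = - F l := by
    intro l
    simp only [F]
    rw [← Finset.sum_neg_distrib]
    refine Finset.sum_congr rfl fun i _ => ?_
    have h1 : z i * kc (z i) = ((p ^ a : ℕ) : Qb) := hkc _ _ (hz i)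
    have h0 : kc (z i) ≠ 0 := (map_ne_zero_iff kc kc.injective).2 (hz0 i)
    have h2 : (z i * kc (z i)) ^ 1 = ((p ^ a : ℕ) : Qb) ^ 1 := by rw [h1]
    have h3 : lv a l (kc (z i)) = - lv a l (z i) := lv_conj (hz0 i) h0 one_pos h2
    exact h3
  let C₀ : ℝ := (-(2 * N * c₀) + (m * n - 2 * c) * L) / m
  have hbound : ∀ l, |F l - C₀| ≤ w * L := by
    intro l
    have h1 := hc₀ l
    rw [← hL] at h1
    have h2 : F l - C₀ = -((N : ℝ) / m) * (2 * (Real.log ‖l ρ‖ - c₀)) := by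
      have h3 : F l = (-(2 * N * Real.log ‖l ρ‖) + (m * n - 2 * c) * L) / m := by
        rw [eq_div_iff hm'.ne', mul_comm]
        exact hF l
      rw [h3]
      simp only [C₀]
      ring
    rw [h2, abs_mul, abs_neg, abs_mul, abs_of_pos (two_pos : (0 : ℝ) < 2),
      abs_of_nonneg (by positivity : (0 : ℝ) ≤ N / m)]
    have h4 : (N : ℝ) / m ≤ 1 := by
      rw [div_le_one hm']
      exact_mod_cast hN
    calc (N : ℝ) / m * (2 * |Real.log ‖l ρ‖ - c₀|) ≤ 1 * (w * L) := by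
          refine mul_le_mul h4 h1 (by positivity) zero_le_one
      _ = w * L := one_mul _
  have hb : ∀ g : GQ, |∑ i, lv a (ι.comp (g : Qb →+* Qb)) (z i)| ≤ w * L := by
    intro g
    change |F (ι.comp (g : Qb →+* Qb))| ≤ _
    have h1 := abs_le.1 (hbound (ι.comp (g : Qb →+* Qb)))
    have h2 := abs_le.1 (hbound ((ι.comp (g : Qb →+* Qb)).comp (kc : Qb →+* Qb)))
    rw [hconj] at h2
    rw [abs_le]
    constructor <;> linarith [h1.1, h1.2, h2.1, h2.2]
  have h1 := mean_square ha H k z hz hne ι hb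
  rw [← hL] at h1
  have h2 : ∑ i, ((2 * δ (k i)) * L) ^ 2 = (∑ i, (2 * δ (k i)) ^ 2) * L ^ 2 := by
    rw [Finset.sum_mul]
    exact Finset.sum_congr rfl fun i _ => by ring
  rw [h2, mul_pow] at h1
  exact le_of_mul_le_mul_right h1 (by positivity)

end

end Pool.Agent.KS6_5.OF
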